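import Pool.Agent.helper15.P2.SpecD
import Pool.Agent.helper49.P2.OSG

/-!
# Row p2:BZB (the third coordinate along a band)
-/

set_option autoImplicit false

open scoped ContDiff Topology ComplexConjugate ENNReal
open MeasureTheory Filter Set Metric

namespace Pool.Agent.P2B

open Pool.Agent.P2 Pool.Agent.P2I

theorem BZB_lap_sub (g f : ℂ → ℝ) (z : ℂ) (hg : ContDiffAt ℝ 2 g z) (hf : ContDiffAt ℝ 2 f z) :
    lap (fun t => g t - f t) z = lap g z - lap f z := by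
  have h1 : (fun t => g t - f t) = g + (-f) := by
    funext t; simp [sub_eq_add_neg]
  have h2 : ContDiffAt ℝ (2 : ℕ) g z := hg
  have h3 : ContDiffAt ℝ (2 : ℕ) f z := hf
  have h4 : ContDiffAt ℝ (2 : ℕ) (-f) z := h3.neg
  unfold lap
  rw [h1, iteratedFDeriv_add_apply h2 h4, iteratedFDeriv_neg_apply]
  simp
  ring

theorem BZB_lap_congr (g f : ℂ → ℝ) (z : ℂ) (h : g =ᶠ[𝓝 z] f) : lap g z = lap f z := by
  unfold lap
  rw [(h.iteratedFDeriv ℝ 2).eq_of_nhds]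

/-- algebra: the point in the frame of the base point -/
theorem BZB_alg (P0 Q0 A B t n : ℂ) (hn : n ≠ 0) (hn2 : n ^ 2 = P0 * conj P0 + Q0 * conj Q0)
    (h : A * (Q0 + t * conj P0) = B * (P0 - t * conj Q0)) :
    ((A * conj P0 + B * conj Q0) / n) * ((P0 - t * conj Q0) / n) = A ∧
    ((A * conj P0 + B * conj Q0) / n) * ((Q0 + t * conj P0) / n) = B := by
  constructor
  · rw [div_mul_div_comm, div_eq_iff (mul_ne_zero hn hn)]
    linear_combination (-(conj Q0)) * h - A * hn2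
  · rw [div_mul_div_comm, div_eq_iff (mul_ne_zero hn hn)]
    linear_combination (conj P0) * h - B * hn2

theorem BZB_pqa (P0 Q0 t : ℂ) (n : ℝ) (hn : 0 < n)
    (hn2 : n ^ 2 = Complex.normSq P0 + Complex.normSq Q0) :
    Complex.normSq ((P0 - t * conj Q0) / (n : ℂ)) + Complex.normSq ((Q0 + t * conj P0) / (n : ℂ)) =
      1 + Complex.normSq t := by
  have h1 : Complex.normSq (P0 - t * conj Q0) + Complex.normSq (Q0 + t * conj P0) =
      (1 + Complex.normSq t) * n ^ 2 := by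
    rw [hn2]
    simp only [Complex.normSq_apply, Complex.sub_re, Complex.sub_im, Complex.add_re, Complex.add_im,
      Complex.mul_re, Complex.mul_im, Complex.conj_re, Complex.conj_im]
    ring
  rw [Complex.normSq_div, Complex.normSq_div, Complex.normSq_ofReal, ← add_div, h1]
  field_simp

/-- the pointwise statements -/
theorem BZB_pt {C0 α : ℝ} {Ω : Set E3} {G : E3 → ℝ} {F : ℂ × ℂ → E3} {E κ r : ℝ} {x0 : ℂ}
    {Y : ℂ × ℂ → ℂ} (hBUQ : BUQ_stmt) (hCD : CD Ω G C0 α) (hFD : FD Ω F E) (hx0 : x0 ∈ ball (0 : ℂ) 1)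
    (hκ : 0 < κ) (hr : 0 < r) (hr1 : r ≤ 1)
    (hY : Band (fun p => F p 0) (fun p => F p 1) (ball 0 1) κ r x0 Y) {t v : ℂ}
    (ht : t ∈ ball (0 : ℂ) κ) (hv : v ∈ ball (0 : ℂ) r) :
    0 < nr F x0 ∧ nr F x0 ^ 2 = pq (F (x0, 0)) ∧ (Y (t, v), v) ∈ BI ∧
    (F (Y (t, v), v) 0 * conj (F (x0, 0) 0) + F (Y (t, v), v) 1 * conj (F (x0, 0) 1)) ≠ 0 ∧
    F (Y (t, v), v) = ((F (Y (t, v), v) 0 * conj (F (x0, 0) 0) + F (Y (t, v), v) 1 * conj (F (x0, 0) 1)) /
      (nr F x0 : ℂ)) • fv F x0 t (zb F x0 Y (t, v)) ∧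
    fv F x0 t (zb F x0 Y (t, v)) ∈ Ω ∧ pq (fv F x0 t (zb F x0 Y (t, v))) = 1 + Complex.normSq t := by
  have h0 : ((x0, 0) : ℂ × ℂ) ∈ BI := ⟨hx0, mem_ball_self one_pos⟩
  have hpq0 : 0 < pq (F (x0, 0)) := (hCD.nn _ (hFD.mem _ h0)).1
  have hn : 0 < nr F x0 := Real.sqrt_pos.mpr hpq0
  have hn2 : nr F x0 ^ 2 = pq (F (x0, 0)) := Real.sq_sqrt hpq0.le
  have hb := hY.2.2 t ht v hv
  have hv1 : v ∈ ball (0 : ℂ) 1 := ball_subset_ball hr1 hv
  have hBI : (Y (t, v), v) ∈ BI := ⟨hb.1, hv1⟩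
  have hD : (F (Y (t, v), v) 0 * conj (F (x0, 0) 0) + F (Y (t, v), v) 1 * conj (F (x0, 0) 1)) ≠ 0 :=
    ((hBUQ _ _ E hFD.nd x0 hx0 κ r Y hκ hr hr1 hY).1 t ht v hv).2.1
  have hnC : (nr F x0 : ℂ) ≠ 0 := by exact_mod_cast hn.ne'
  have hn2C : (nr F x0 : ℂ) ^ 2 = F (x0, 0) 0 * conj (F (x0, 0) 0) + F (x0, 0) 1 * conj (F (x0, 0) 1) := by
    rw [Complex.mul_conj, Complex.mul_conj, ← Complex.ofReal_pow, hn2, ← Complex.ofReal_add]
    rfl
  obtain ⟨ha, hb'⟩ := BZB_alg (F (x0, 0) 0) (F (x0, 0) 1) (F (Y (t, v), v) 0) (F (Y (t, v), v) 1) t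
    (nr F x0 : ℂ) hnC hn2C hb.2
  have hLne : (F (Y (t, v), v) 0 * conj (F (x0, 0) 0) + F (Y (t, v), v) 1 * conj (F (x0, 0) 1)) /
      (nr F x0 : ℂ) ≠ 0 := div_ne_zero hD hnC
  have heq : F (Y (t, v), v) = ((F (Y (t, v), v) 0 * conj (F (x0, 0) 0) +
      F (Y (t, v), v) 1 * conj (F (x0, 0) 1)) / (nr F x0 : ℂ)) • fv F x0 t (zb F x0 Y (t, v)) := by
    funext i
    fin_cases i
    · simp only [fv, Pi.smul_apply, smul_eq_mul]
      exact ha.symm
    · simp only [fv, Pi.smul_apply, smul_eq_mul]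
      exact hb'.symm
    · simp only [fv, zb, Pi.smul_apply, smul_eq_mul]
      show F (Y (t, v), v) 2 = _ * (F (Y (t, v), v) 2 * (nr F x0 : ℂ) / _)
      field_simp
  refine ⟨hn, hn2, hBI, hD, heq, ?_, ?_⟩
  · have h1 := hCD.sc _ (hFD.mem _ hBI) _ (inv_ne_zero hLne)
    have h2 := (eq_inv_smul_iff₀ hLne).mpr heq.symm
    rw [h2]
    exact h1
  · unfold pq
    simp only [fv]
    exact BZB_pqa (F (x0, 0) 0) (F (x0, 0) 1) t (nr F x0) hn hn2

/-- BZB: the third coordinate along a band. -/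
theorem BZB (hCHN : CHN_stmt) (hCH1 : CH1_stmt) (hBSL : BSL_stmt) (hBUQ : BUQ_stmt) : BZB_stmt := by
  intro C0 α hC0 hα hα1
  refine ⟨16 * C0, by linarith, ?_⟩
  intro Ω G F E κ r x0 Y hCD hFD hx0 hκ hκ1 hr hr1 hY
  have hpt := fun (t v : ℂ) (ht : t ∈ ball (0 : ℂ) κ) (hv : v ∈ ball (0 : ℂ) r) =>
    BZB_pt hBUQ hCD hFD hx0 hκ hr hr1 hY ht hv
  have hS : IsOpen (ball (0 : ℂ) κ ×ˢ ball (0 : ℂ) r) := isOpen_ball.prod isOpen_ball
  -- the composition with the band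
  have hFY : DifferentiableOn ℂ (fun p : ℂ × ℂ => F (Y p, p.2)) (ball (0 : ℂ) κ ×ˢ ball (0 : ℂ) r) := by
    refine hFD.df.comp (hY.1.prodMk differentiableOn_snd) ?_
    rintro ⟨t, v⟩ ⟨ht, hv⟩
    exact (hpt t v ht hv).2.2.1
  have hFYi := differentiableOn_pi.mp hFY
  have hDd : DifferentiableOn ℂ (fun p : ℂ × ℂ => F (Y p, p.2) 0 * conj (F (x0, 0) 0) +
      F (Y p, p.2) 1 * conj (F (x0, 0) 1)) (ball (0 : ℂ) κ ×ˢ ball (0 : ℂ) r) :=
    ((hFYi 0).mul_const _).add ((hFYi 1).mul_const _)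
  have hzd : DifferentiableOn ℂ (zb F x0 Y) (ball (0 : ℂ) κ ×ˢ ball (0 : ℂ) r) := by
    have h1 := ((hFYi 2).mul_const (nr F x0 : ℂ)).mul (hDd.inv (by
      rintro ⟨t, v⟩ ⟨ht, hv⟩
      exact (hpt t v ht hv).2.2.2.1))
    refine h1.congr ?_
    intro p _
    rfl
  have hfvd : DifferentiableOn ℂ (fun p : ℂ × ℂ => fv F x0 p.1 (zb F x0 Y p))
      (ball (0 : ℂ) κ ×ˢ ball (0 : ℂ) r) := by
    rw [differentiableOn_pi]
    intro i
    fin_cases i
    · show DifferentiableOn ℂ (fun p : ℂ × ℂ => (F (x0, 0) 0 - p.1 * conj (F (x0, 0) 1)) /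
        (nr F x0 : ℂ)) _
      exact ((differentiableOn_const (F (x0, 0) 0)).sub
        (differentiableOn_fst.mul_const (conj (F (x0, 0) 1)))).mul_const (nr F x0 : ℂ)⁻¹
    · show DifferentiableOn ℂ (fun p : ℂ × ℂ => (F (x0, 0) 1 + p.1 * conj (F (x0, 0) 0)) /
        (nr F x0 : ℂ)) _
      exact ((differentiableOn_const (F (x0, 0) 1)).add
        (differentiableOn_fst.mul_const (conj (F (x0, 0) 0)))).mul_const (nr F x0 : ℂ)⁻¹
    · exact hzd
  have hWs : ContDiffOn ℝ ∞ (fun p : ℂ × ℂ => G (fv F x0 p.1 (zb F x0 Y p)))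
      (ball (0 : ℂ) κ ×ˢ ball (0 : ℂ) r) := by
    refine hCD.sm.comp (OSG hS hfvd) ?_
    rintro ⟨t, v⟩ ⟨ht, hv⟩
    exact (hpt t v ht hv).2.2.2.2.2.1
  refine ⟨hzd, hWs, ?_⟩
  intro t ht v hv
  obtain ⟨hn, hn2, hBI, hD, heq, hmem, hpqv⟩ := hpt t v ht hv
  have ht1 : Complex.normSq t < 1 := by
    rw [Complex.normSq_eq_norm_sq]
    have h1 : ‖t‖ < κ := by simpa using ht
    have h2 := norm_nonneg t
    nlinarith
  have ht0 := Complex.normSq_nonneg t
  have hbdW : ∀ v' ∈ ball (0 : ℂ) r, |G (fv F x0 t (zb F x0 Y (t, v')))| ≤ C0 + 1 := by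
    intro v' hv'
    obtain ⟨_, _, _, _, _, hm, hq⟩ := hpt t v' ht hv'
    have h1 := hCD.bd _ hm
    rw [hq] at h1
    have h2 : 0 ≤ Real.log (1 + Complex.normSq t) := Real.log_nonneg (by linarith)
    have h3 : Real.log (1 + Complex.normSq t) ≤ Complex.normSq t := by
      have := Real.log_le_sub_one_of_pos (show 0 < 1 + Complex.normSq t by linarith)
      linarith
    rw [abs_le] at h1 ⊢
    constructor <;> linarith [h1.1, h1.2]
  refine ⟨?_, hmem, heq, (hbdW v hv).trans (by linarith), ?_, ?_, ?_⟩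
  · -- bound for the third coordinate
    have h1 := (hCD.nn _ hmem).2
    rw [hpqv] at h1
    have h2 : Complex.normSq (zb F x0 Y (t, v)) ≤ nq (fv F x0 t (zb F x0 Y (t, v))) := by
      unfold nq
      rw [Fin.sum_univ_three]
      have e0 := Complex.normSq_nonneg (fv F x0 t (zb F x0 Y (t, v)) 0)
      have e1 := Complex.normSq_nonneg (fv F x0 t (zb F x0 Y (t, v)) 1)
      have e2 : fv F x0 t (zb F x0 Y (t, v)) 2 = zb F x0 Y (t, v) := rfl
      rw [e2]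
      linarith
    rw [Complex.normSq_eq_norm_sq] at h2
    have h3 : ‖zb F x0 Y (t, v)‖ ^ 2 ≤ (2 * C0) ^ 2 := by nlinarith
    have h4 : ‖zb F x0 Y (t, v)‖ ≤ 2 * C0 := by
      exact (pow_le_pow_iff_left₀ (norm_nonneg _) (by linarith) two_ne_zero).mp h3
    linarith
  · -- Hoelder
    intro v' hv'
    obtain ⟨_, _, _, _, _, hm', hq'⟩ := hpt t v' ht hv'
    set δ := ‖zb F x0 Y (t, v) - zb F x0 Y (t, v')‖ with hδ
    have hδ0 : 0 ≤ δ := norm_nonneg _
    have hdiff : ‖fv F x0 t (zb F x0 Y (t, v)) - fv F x0 t (zb F x0 Y (t, v'))‖ = δ := by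
      apply le_antisymm
      · rw [pi_norm_le_iff_of_nonneg hδ0]
        intro i
        fin_cases i
        · simp [fv, hδ0]
        · simp [fv, hδ0]
        · exact le_rfl
      · have := norm_le_pi_norm (fv F x0 t (zb F x0 Y (t, v)) - fv F x0 t (zb F x0 Y (t, v'))) 2
        exact this
    have hnrm : 1 / 2 ≤ ‖fv F x0 t (zb F x0 Y (t, v))‖ := by
      by_contra hcon
      push Not at hcon
      have e0 := norm_le_pi_norm (fv F x0 t (zb F x0 Y (t, v))) 0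
      have e1 := norm_le_pi_norm (fv F x0 t (zb F x0 Y (t, v))) 1
      have e2 : pq (fv F x0 t (zb F x0 Y (t, v))) =
          ‖fv F x0 t (zb F x0 Y (t, v)) 0‖ ^ 2 + ‖fv F x0 t (zb F x0 Y (t, v)) 1‖ ^ 2 := by
        unfold pq
        rw [Complex.normSq_eq_norm_sq, Complex.normSq_eq_norm_sq]
      rw [hpqv] at e2
      have n0 := norm_nonneg (fv F x0 t (zb F x0 Y (t, v)) 0)
      have n1 := norm_nonneg (fv F x0 t (zb F x0 Y (t, v)) 1)
      nlinarith
    by_cases hc : δ ≤ (1 / 2) * ‖fv F x0 t (zb F x0 Y (t, v))‖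
    · have h1 := hCD.ho _ hmem _ hm' (by rw [hdiff]; exact hc)
      rw [hdiff] at h1
      have h2 : δ / ‖fv F x0 t (zb F x0 Y (t, v))‖ ≤ 2 * δ := by
        rw [div_le_iff₀ (by linarith)]
        nlinarith
      have h3 : (δ / ‖fv F x0 t (zb F x0 Y (t, v))‖) ^ α ≤ (2 * δ) ^ α :=
        Real.rpow_le_rpow (by positivity) h2 hα.le
      have h4 : (2 * δ) ^ α = 2 ^ α * δ ^ α := Real.mul_rpow (by norm_num) hδ0
      have h5 : (2 : ℝ) ^ α ≤ 2 := by
        calc (2 : ℝ) ^ α ≤ 2 ^ (1 : ℝ) := Real.rpow_le_rpow_of_exponent_le (by norm_num) hα1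
          _ = 2 := Real.rpow_one 2
      have h6 : 0 ≤ δ ^ α := Real.rpow_nonneg hδ0 _
      calc |G (fv F x0 t (zb F x0 Y (t, v))) - G (fv F x0 t (zb F x0 Y (t, v')))|
          ≤ C0 * (δ / ‖fv F x0 t (zb F x0 Y (t, v))‖) ^ α := h1
        _ ≤ C0 * (2 ^ α * δ ^ α) := by
            rw [← h4]
            exact mul_le_mul_of_nonneg_left h3 (by linarith)
        _ ≤ C0 * (2 * δ ^ α) :=
            mul_le_mul_of_nonneg_left (mul_le_mul_of_nonneg_right h5 h6) (by linarith)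
        _ ≤ 16 * C0 * δ ^ α := by nlinarith
    · push Not at hc
      have hδ4 : 1 / 4 ≤ δ := by linarith
      have h1 : (1 / 4 : ℝ) ≤ δ ^ α := by
        calc (1 / 4 : ℝ) = (1 / 4) ^ (1 : ℝ) := (Real.rpow_one _).symm
          _ ≤ (1 / 4) ^ α := Real.rpow_le_rpow_of_exponent_ge (by norm_num) (by norm_num) hα1
          _ ≤ δ ^ α := Real.rpow_le_rpow (by norm_num) hδ4 hα.le
      have h2 := hbdW v hv
      have h3 := hbdW v' hv'
      have h4 : |G (fv F x0 t (zb F x0 Y (t, v))) - G (fv F x0 t (zb F x0 Y (t, v')))| ≤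
          2 * (C0 + 1) := by
        rw [abs_le] at h2 h3 ⊢
        constructor <;> linarith [h2.1, h2.2, h3.1, h3.2]
      nlinarith
  · -- the Laplacian
    have hXd : DifferentiableOn ℂ (fun s => Y (s, v)) (ball (0 : ℂ) κ) := by
      refine hY.1.comp (differentiableOn_id.prodMk (differentiableOn_const v)) ?_
      intro s hs
      exact ⟨hs, hv⟩
    have hv1 : v ∈ ball (0 : ℂ) 1 := ball_subset_ball hr1 hv
    have hFx : DifferentiableOn ℂ (fun x => F (x, v)) (ball (0 : ℂ) 1) := by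
      refine hFD.df.comp (differentiableOn_id.prodMk (differentiableOn_const v)) ?_
      intro s hs
      exact ⟨hs, hv1⟩
    have hgs : ContDiffOn ℝ ∞ (fun x => G (F (x, v))) (ball (0 : ℂ) 1) := by
      refine hCD.sm.comp (OSG isOpen_ball hFx) ?_
      intro x hx
      exact hFD.mem _ ⟨hx, hv1⟩
    have hYt : Y (t, v) ∈ ball (0 : ℂ) 1 := hBI.1
    have hgat : ContDiffAt ℝ 2 (fun x => G (F (x, v))) (Y (t, v)) :=
      (hgs.of_le ENat.LEInfty.out).contDiffAt (isOpen_ball.mem_nhds hYt)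
    set Lv : ℂ → ℂ := fun s => (F (Y (s, v), v) 0 * conj (F (x0, 0) 0) +
      F (Y (s, v), v) 1 * conj (F (x0, 0) 1)) / (nr F x0 : ℂ) with hLv
    have hLd : DifferentiableOn ℂ Lv (ball (0 : ℂ) κ) := by
      have h1 : DifferentiableOn ℂ (fun s => F (Y (s, v), v)) (ball (0 : ℂ) κ) := by
        refine hFY.comp (differentiableOn_id.prodMk (differentiableOn_const v)) ?_
        intro s hs
        exact ⟨hs, hv⟩
      have h2 := differentiableOn_pi.mp h1
      exact (((h2 0).mul_const _).add ((h2 1).mul_const _)).div_const _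
    have hL0 : ∀ s ∈ ball (0 : ℂ) κ, Lv s ≠ 0 := by
      intro s hs
      obtain ⟨hn, _, _, hD, _⟩ := hpt s v hs hv
      exact div_ne_zero hD (by exact_mod_cast hn.ne')
    have hU := hCH1.2 (ball (0 : ℂ) κ) Lv (fun _ => 0) isOpen_ball hLd (differentiableOn_const 0)
      (fun z hz => Or.inl (hL0 z hz))
    have hUlap : lap (Up Lv (fun _ => 0)) t = 0 := by
      rw [hU.2 t ht]
      simp [sph, Wr]
    have hcomp : ContDiffOn ℝ ∞ (fun s => G (F (Y (s, v), v))) (ball (0 : ℂ) κ) := by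
      refine hgs.comp (OSG isOpen_ball hXd) ?_
      intro s hs
      exact (hpt s v hs hv).2.2.1.1
    have hev : (fun s => G (fv F x0 s (zb F x0 Y (s, v)))) =ᶠ[𝓝 t]
        (fun s => G (F (Y (s, v), v)) - Up Lv (fun _ => 0) s) := by
      filter_upwards [isOpen_ball.mem_nhds ht] with s hs
      obtain ⟨_, _, _, _, he, hm, _⟩ := hpt s v hs hv
      have h1 := hCD.hg _ hm (Lv s) (hL0 s hs)
      have h2 : F (Y (s, v), v) = Lv s • fv F x0 s (zb F x0 Y (s, v)) := he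
      have h3 : Up Lv (fun _ => 0) s = Real.log ‖Lv s‖ := by
        unfold Up
        rw [map_zero, add_zero, Complex.normSq_eq_norm_sq, Real.log_pow]
        push_cast
        ring
      rw [h2, h1, h3]
      ring
    rw [BZB_lap_congr _ _ _ hev, BZB_lap_sub _ _ _ ?_ ?_, hUlap, sub_zero]
    · exact hCH1.1 (ball (0 : ℂ) κ) (fun s => Y (s, v)) (fun x => G (F (x, v))) t isOpen_ball hXd ht hgat
    · exact (hcomp.of_le ENat.LEInfty.out).contDiffAt (isOpen_ball.mem_nhds ht)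
    · exact (hU.1.of_le ENat.LEInfty.out).contDiffAt (isOpen_ball.mem_nhds ht)
  · -- nonnegativity
    have hv1 : v ∈ ball (0 : ℂ) 1 := ball_subset_ball hr1 hv
    have hFx : DifferentiableOn ℂ (fun x => F (x, v)) (ball (0 : ℂ) 1) := by
      refine hFD.df.comp (differentiableOn_id.prodMk (differentiableOn_const v)) ?_
      intro s hs
      exact ⟨hs, hv1⟩
    have hΩm : F (Y (t, v), v) ∈ Ω := hFD.mem _ hBI
    have hGat : ContDiffAt ℝ 2 G (F (Y (t, v), v)) :=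
      (hCD.sm.of_le ENat.LEInfty.out).contDiffAt (hCD.op.mem_nhds hΩm)
    rw [hCHN.2.1 (ball (0 : ℂ) 1) (fun x => F (x, v)) G (Y (t, v)) isOpen_ball hFx hBI.1 hGat]
    exact hCD.ps _ hΩm _

end Pool.Agent.P2B
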