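import Pool.Agent.helper56.P2.SpecU

set_option autoImplicit false

namespace Pool.Agent.P2U

open MeasureTheory Set Filter Topology Metric Complex
open scoped ENNReal ContDiff

/-- the linear map of the shear -/
noncomputable def USHR_S (b : ℂ) : ℂ × ℂ →L[ℂ] ℂ × ℂ :=
  (ContinuousLinearMap.fst ℂ ℂ ℂ).prod
    (ContinuousLinearMap.snd ℂ ℂ ℂ + b • ContinuousLinearMap.fst ℂ ℂ ℂ)

lemma USHR_S_apply (b : ℂ) (p : ℂ × ℂ) : USHR_S b p = (p.1, p.2 + b * p.1) := by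
  simp [USHR_S]

lemma USHR_sh (b : ℂ) (f : ℂ × ℂ → ℂ) : sh b f = fun p => f (USHR_S b p) := by
  funext p
  rw [USHR_S_apply]; rfl

lemma USHR_ch (b : ℂ) (f : ℂ × ℂ → ℂ) (p ξ : ℂ × ℂ)
    (hf : DifferentiableAt ℂ f (p.1, p.2 + b * p.1)) :
    fderiv ℂ (sh b f) p ξ = fderiv ℂ f (p.1, p.2 + b * p.1) (ξ.1, ξ.2 + b * ξ.1) := by
  rw [← USHR_S_apply b p] at hf ⊢
  rw [← USHR_S_apply b ξ, USHR_sh]
  have h := (hf.hasFDerivAt.comp p (USHR_S b).hasFDerivAt).fderiv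
  have h2 : fderiv ℂ (fun q => f (USHR_S b q)) p = (fderiv ℂ f (USHR_S b p)).comp (USHR_S b) := h
  rw [h2]; rfl

lemma USHR_dd (f : ℂ × ℂ → ℂ) (q v : ℂ × ℂ) (hf : AnalyticAt ℂ f q) :
    DifferentiableAt ℂ (fun p => fderiv ℂ f p v) q :=
  (hf.fderiv.differentiableAt).clm_apply (differentiableAt_const v)

lemma USHR_cx (P Q : ℂ × ℂ → ℂ) (q : ℂ × ℂ) (hP : AnalyticAt ℂ P q) (hQ : AnalyticAt ℂ Q q) :
    DifferentiableAt ℂ (cx P Q) q := by
  have h1 := USHR_dd P q (1, 0) hP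
  have h2 := USHR_dd Q q (1, 0) hQ
  exact (hQ.differentiableAt.mul h1).sub (hP.differentiableAt.mul h2)

lemma USHR_cv (P Q : ℂ × ℂ → ℂ) (q : ℂ × ℂ) (hP : AnalyticAt ℂ P q) (hQ : AnalyticAt ℂ Q q) :
    DifferentiableAt ℂ (cv P Q) q := by
  have h1 := USHR_dd P q (0, 1) hP
  have h2 := USHR_dd Q q (0, 1) hQ
  exact (hQ.differentiableAt.mul h1).sub (hP.differentiableAt.mul h2)

lemma USHR_dx (b : ℂ) (f : ℂ × ℂ → ℂ) (p : ℂ × ℂ)
    (hf : DifferentiableAt ℂ f (p.1, p.2 + b * p.1)) :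
    dx (sh b f) p = dx f (p.1, p.2 + b * p.1) + b * dv f (p.1, p.2 + b * p.1) := by
  unfold dx dv
  rw [USHR_ch b f p _ hf]
  have h : ((((1 : ℂ), (0 : ℂ)).1, ((1 : ℂ), (0 : ℂ)).2 + b * ((1 : ℂ), (0 : ℂ)).1) : ℂ × ℂ) =
      (1, 0) + b • (0, 1) := by
    ext <;> simp
  rw [h, map_add, map_smul, smul_eq_mul]

lemma USHR_dv (b : ℂ) (f : ℂ × ℂ → ℂ) (p : ℂ × ℂ)
    (hf : DifferentiableAt ℂ f (p.1, p.2 + b * p.1)) :
    dv (sh b f) p = dv f (p.1, p.2 + b * p.1) := by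
  unfold dv
  rw [USHR_ch b f p _ hf]
  have h : ((((0 : ℂ), (1 : ℂ)).1, ((0 : ℂ), (1 : ℂ)).2 + b * ((0 : ℂ), (1 : ℂ)).1) : ℂ × ℂ) =
      (0, 1) := by
    ext <;> simp
  rw [h]

lemma USHR_TB (b : ℂ) (r τ : ℝ) (h : r + 2 * ‖b‖ ≤ τ) (p : ℂ × ℂ) (hp : p ∈ TB 2 r) :
    (p.1, p.2 + b * p.1) ∈ TB 4 τ := by
  obtain ⟨h1, h2⟩ := hp
  refine ⟨by simp only; linarith, ?_⟩
  simp only
  have h3 : ‖p.2 + b * p.1‖ ≤ ‖p.2‖ + ‖b‖ * ‖p.1‖ := by
    refine (norm_add_le _ _).trans ?_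
    rw [norm_mul]
  have h4 : ‖b‖ * ‖p.1‖ ≤ ‖b‖ * 2 := mul_le_mul_of_nonneg_left h1.le (norm_nonneg _)
  linarith

lemma USHR_TBo (a r : ℝ) : IsOpen (TB a r) := by
  have h1 : IsOpen {p : ℂ × ℂ | ‖p.1‖ < a} := isOpen_lt continuous_fst.norm continuous_const
  have h2 : IsOpen {p : ℂ × ℂ | ‖p.2‖ < r} := isOpen_lt continuous_snd.norm continuous_const
  exact h1.inter h2

theorem USHR : USHR_stmt := by
  intro P Q τ hH b r hr
  have hmaps : ∀ p ∈ TB 2 r, (p.1, p.2 + b * p.1) ∈ TB 4 τ := USHR_TB b r τ hr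
  have hcx : ∀ p ∈ TB 2 r, cx (sh b P) (sh b Q) p =
      cx P Q (p.1, p.2 + b * p.1) + b * cv P Q (p.1, p.2 + b * p.1) := by
    intro p hp
    have hP := (hH.hP _ (hmaps p hp)).differentiableAt
    have hQ := (hH.hQ _ (hmaps p hp)).differentiableAt
    unfold cx cv
    rw [USHR_dx b P p hP, USHR_dx b Q p hQ]
    simp only [sh]
    ring
  have hcv : ∀ p ∈ TB 2 r, cv (sh b P) (sh b Q) p = cv P Q (p.1, p.2 + b * p.1) := by
    intro p hp
    have hP := (hH.hP _ (hmaps p hp)).differentiableAt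
    have hQ := (hH.hQ _ (hmaps p hp)).differentiableAt
    unfold cv
    rw [USHR_dv b P p hP, USHR_dv b Q p hQ]
    simp only [sh]
  refine ⟨⟨?_, ?_, ?_⟩, ?_⟩
  · rw [USHR_sh]
    intro p hp
    have h1 : AnalyticAt ℂ P (USHR_S b p) := by
      rw [USHR_S_apply]; exact hH.hP _ (hmaps p hp)
    exact h1.comp ((USHR_S b).analyticAt p)
  · rw [USHR_sh]
    intro p hp
    have h1 : AnalyticAt ℂ Q (USHR_S b p) := by
      rw [USHR_S_apply]; exact hH.hQ _ (hmaps p hp)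
    exact h1.comp ((USHR_S b).analyticAt p)
  · intro p hp
    exact hH.ne _ (hmaps p hp)
  · intro p hp
    refine ⟨hmaps p hp, hcx p hp, hcv p hp, rfl, ?_⟩
    have hP := hH.hP _ (hmaps p hp)
    have hQ := hH.hQ _ (hmaps p hp)
    have dcx := USHR_cx P Q _ hP hQ
    have dcv := USHR_cv P Q _ hP hQ
    have hnb : TB 2 r ∈ 𝓝 p := (USHR_TBo 2 r).mem_nhds hp
    have e1 : cv (sh b P) (sh b Q) =ᶠ[𝓝 p] sh b (cv P Q) := by
      filter_upwards [hnb] with q hq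
      exact hcv q hq
    have e2 : cx (sh b P) (sh b Q) =ᶠ[𝓝 p] sh b (fun q => cx P Q q + b * cv P Q q) := by
      filter_upwards [hnb] with q hq
      exact hcx q hq
    have dsum : DifferentiableAt ℂ (fun q => cx P Q q + b * cv P Q q) (p.1, p.2 + b * p.1) :=
      dcx.add ((differentiableAt_const b).mul dcv)
    set s : ℂ × ℂ := (p.1, p.2 + b * p.1) with hs
    have hef : (((ef (sh b P) (sh b Q) p).1,
        (ef (sh b P) (sh b Q) p).2 + b * (ef (sh b P) (sh b Q) p).1) : ℂ × ℂ) = ef P Q s := by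
      unfold ef
      ext
      · simp only; exact hcv p hp
      · simp only
        rw [hcv p hp, hcx p hp]
        ring
    have f1 : fderiv ℂ (cv (sh b P) (sh b Q)) p (ef (sh b P) (sh b Q) p) =
        fderiv ℂ (cv P Q) s (ef P Q s) := by
      rw [e1.fderiv_eq, USHR_ch b (cv P Q) p _ dcv, hef]
    have f2 : fderiv ℂ (cx (sh b P) (sh b Q)) p (ef (sh b P) (sh b Q) p) =
        fderiv ℂ (cx P Q) s (ef P Q s) + b * fderiv ℂ (cv P Q) s (ef P Q s) := by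
      rw [e2.fderiv_eq, USHR_ch b _ p _ dsum, hef]
      have : fderiv ℂ (fun q => cx P Q q + b * cv P Q q) s =
          fderiv ℂ (cx P Q) s + b • fderiv ℂ (cv P Q) s := by
        rw [fderiv_fun_add dcx (dcv.const_mul b), fderiv_const_mul dcv]
      rw [this]
      simp
    unfold nn
    rw [f1, f2, hcx p hp, hcv p hp]
    ring

end Pool.Agent.P2U
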