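import Pool.Agent.helper15.P2.SpecA2
import Pool.Agent.helper75.P2.MAN_C

/-!
# Row p2:AST (the terms are small)
-/

set_option autoImplicit false

open scoped ContDiff Topology ENNReal
open MeasureTheory Filter Set Metric MvPolynomial Pool.Agent.helper37.QA

namespace Pool.Agent.P2A

open Pool.Agent.P2

theorem AST_eta_nn (z : ℂ) : 0 ≤ eta z := Real.smoothTransition.nonneg _

theorem AST_eta_le (z : ℂ) : eta z ≤ 1 := Real.smoothTransition.le_one _

theorem AST_eta_one {z : ℂ} (h : Complex.normSq z ≤ 1 / 2) : eta z = 1 :=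
  Real.smoothTransition.one_of_one_le (by linarith)

theorem AST_eta_zero {z : ℂ} (h : 5 / 8 ≤ Complex.normSq z) : eta z = 0 :=
  Real.smoothTransition.zero_of_nonpos (by linarith)

theorem AST_eta_cont : Continuous eta := by
  unfold eta
  exact Real.smoothTransition.continuous.comp
    (continuous_const.sub (continuous_const.mul Complex.continuous_normSq))

theorem AST_bxc_nn (x0 y0 : ℂ) (ρ : ℝ) (p : ℂ × ℂ) : 0 ≤ bxc x0 y0 ρ p := by
  unfold bxc
  positivity

theorem AST_bxc_le (x0 y0 : ℂ) (ρ : ℝ) (p : ℂ × ℂ) : bxc x0 y0 ρ p ≤ 1 := by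
  unfold bxc
  have h1 : eta ((ρ : ℂ)⁻¹ * (p.1 - x0)) ^ 2 ≤ 1 :=
    pow_le_one₀ (AST_eta_nn _) (AST_eta_le _)
  have h2 : eta ((ρ : ℂ)⁻¹ * (p.2 - y0)) ^ 2 ≤ 1 :=
    pow_le_one₀ (AST_eta_nn _) (AST_eta_le _)
  exact mul_le_one₀ h1 (by positivity) h2

theorem AST_bxc_cont (x0 y0 : ℂ) (ρ : ℝ) : Continuous (bxc x0 y0 ρ) := by
  unfold bxc
  have h1 : Continuous (fun p : ℂ × ℂ => eta ((ρ : ℂ)⁻¹ * (p.1 - x0))) :=
    AST_eta_cont.comp (by fun_prop)
  have h2 : Continuous (fun p : ℂ × ℂ => eta ((ρ : ℂ)⁻¹ * (p.2 - y0))) :=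
    AST_eta_cont.comp (by fun_prop)
  exact (h1.pow 2).mul (h2.pow 2)

theorem AST_ns (ρ : ℝ) (hρ : 0 < ρ) (w : ℂ) : Complex.normSq ((ρ : ℂ)⁻¹ * w) = (‖w‖ / ρ) ^ 2 := by
  rw [Complex.normSq_eq_norm_sq, norm_mul, norm_inv, Complex.norm_real, Real.norm_eq_abs,
    abs_of_pos hρ, div_eq_inv_mul]

theorem AST_bxc_one {x0 y0 : ℂ} {ρ : ℝ} (hρ : 0 < ρ) {p : ℂ × ℂ} (hp : p ∈ ball (x0, y0) (ρ / 2)) :
    bxc x0 y0 ρ p = 1 := by
  rw [mem_ball, Prod.dist_eq, max_lt_iff] at hp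
  have key : ∀ w : ℂ, ‖w‖ < ρ / 2 → eta ((ρ : ℂ)⁻¹ * w) = 1 := by
    intro w hw
    apply AST_eta_one
    rw [AST_ns ρ hρ]
    have h1 : ‖w‖ / ρ ≤ 1 / 2 := by
      rw [div_le_iff₀ hρ]
      linarith
    have h2 : 0 ≤ ‖w‖ / ρ := by positivity
    nlinarith
  unfold bxc
  rw [key _ (by rw [← dist_eq_norm]; exact hp.1), key _ (by rw [← dist_eq_norm]; exact hp.2)]
  norm_num

theorem AST_bxc_zero {x0 y0 : ℂ} {ρ : ℝ} (hρ : 0 < ρ) {p : ℂ × ℂ} (hp : p ∉ ball (x0, y0) ρ) :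
    bxc x0 y0 ρ p = 0 := by
  rw [mem_ball, Prod.dist_eq, max_lt_iff, not_and_or, not_lt, not_lt] at hp
  have key : ∀ w : ℂ, ρ ≤ ‖w‖ → eta ((ρ : ℂ)⁻¹ * w) = 0 := by
    intro w hw
    apply AST_eta_zero
    rw [AST_ns ρ hρ]
    have h1 : 1 ≤ ‖w‖ / ρ := by
      rw [le_div_iff₀ hρ]
      linarith
    nlinarith
  unfold bxc
  rcases hp with h | h
  · rw [key _ (by rw [← dist_eq_norm]; exact h)]
    ring
  · rw [key (p.2 - y0) (by rw [← dist_eq_norm]; exact h)]
    ring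

theorem AST_cht_cont (ι : Fin 2) : Continuous (fun p : ℂ × ℂ => cht ι p.1 p.2) := by
  unfold cht
  by_cases h : ι = 0
  · simp only [h, if_true]
    refine continuous_pi fun i => ?_
    fin_cases i
    · exact continuous_const
    · exact continuous_fst
    · exact continuous_snd
  · simp only [h, if_false]
    refine continuous_pi fun i => ?_
    fin_cases i
    · exact continuous_fst
    · exact continuous_const
    · exact continuous_snd

theorem AST_ed_cont {d : ℕ} {f : Endo 2 d} {U : Set (PP 2)} (hG : Good0 f U) (N : ℕ) {Ψ : E3 → ℝ}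
    {B : ℝ} (hA : Adm f U N Ψ B) (hd : d ≠ 0) : ContinuousOn (fun Z => ed f N Ψ Z) (cone U) := by
  have h := MAN_en_cont hG N hA hd
  unfold ed
  refine (((h _ _).add (h _ _)).add (h _ _)).div MAN_nq_cont.continuousOn fun Z hZ => ?_
  obtain ⟨h, -⟩ := hZ
  exact (MAN_nq_pos h).ne'

/-- a sequence argument -/
theorem AST_seq (u : ℕ → ℕ → ℝ) (C2 C3 d : ℝ) (hd : 2 ≤ d) (hC3 : 0 < C3)
    (hnn : ∀ j N, j + 1 ≤ N → 0 ≤ u j N) (hsum : ∀ n N, n ≤ N → ∑ j ∈ Finset.range n, u j N ≤ C2)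
    (hcl : ∀ j N N', j ≤ N → N ≤ N' → |u j N' - u j N| ≤ C3 * d ^ j / d ^ N) (ε : ℝ) (hε : 0 < ε) :
    ∃ nA : ℕ, ∀ j N : ℕ, nA ≤ j → j + nA ≤ N → u j N ≤ ε := by
  have hd0 : 0 < d := by linarith
  have hlim0 : Tendsto (fun N : ℕ => C3 * (1 / d) ^ N) atTop (𝓝 0) := by
    have h1 : Tendsto (fun N : ℕ => (1 / d) ^ N) atTop (𝓝 0) :=
      tendsto_pow_atTop_nhds_zero_of_lt_one (by positivity) (by
        rw [div_lt_one hd0]
        linarith)
    have h2 := h1.const_mul C3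
    rwa [mul_zero] at h2
  have hcl' : ∀ j N M, N ≤ M → |u j (j + M) - u j (j + N)| ≤ C3 * (1 / d) ^ N := by
    intro j N M hNM
    have h1 := hcl j (j + N) (j + M) (by omega) (by omega)
    have e : C3 * d ^ j / d ^ (j + N) = C3 * (1 / d) ^ N := by
      rw [pow_add, one_div, inv_pow]
      field_simp
    rwa [e] at h1
  have hex : ∀ j, ∃ b : ℝ, Tendsto (fun N => u j (j + N)) atTop (𝓝 b) := by
    intro j
    apply cauchySeq_tendsto_of_complete
    refine cauchySeq_of_le_tendsto_0' (fun N => C3 * (1 / d) ^ N) ?_ hlim0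
    intro n m hnm
    rw [dist_comm, Real.dist_eq]
    exact hcl' j n m hnm
  choose b hb using hex
  have hb' : ∀ j, Tendsto (fun N => u j N) atTop (𝓝 (b j)) := by
    intro j
    have h1 : Tendsto (fun N => u j (N + j)) atTop (𝓝 (b j)) := by
      refine (hb j).congr fun N => ?_
      rw [Nat.add_comm]
    exact (tendsto_add_atTop_iff_nat j).mp h1
  have hbn : ∀ j, 0 ≤ b j := by
    intro j
    refine ge_of_tendsto (hb' j) ?_
    filter_upwards [eventually_ge_atTop (j + 1)] with N hN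
    exact hnn j N hN
  have hbs : ∀ n, ∑ j ∈ Finset.range n, b j ≤ C2 := by
    intro n
    have h1 : Tendsto (fun N => ∑ j ∈ Finset.range n, u j N) atTop (𝓝 (∑ j ∈ Finset.range n, b j)) :=
      tendsto_finset_sum _ fun j _ => hb' j
    refine le_of_tendsto h1 ?_
    filter_upwards [eventually_ge_atTop n] with N hN
    exact hsum n N hN
  have hsm : Summable b := summable_of_sum_range_le hbn hbs
  have hb0 := hsm.tendsto_atTop_zero
  have hdist : ∀ j N, |b j - u j (j + N)| ≤ C3 * (1 / d) ^ N := by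
    intro j N
    have h1 : Tendsto (fun M => |u j (j + M) - u j (j + N)|) atTop (𝓝 |b j - u j (j + N)|) :=
      ((hb j).sub_const _).abs
    refine le_of_tendsto h1 ?_
    filter_upwards [eventually_ge_atTop N] with M hM
    exact hcl' j N M hM
  have he1 : ∀ᶠ j in atTop, b j < ε / 2 := hb0.eventually (gt_mem_nhds (by linarith))
  have he2 : ∀ᶠ N : ℕ in atTop, C3 * (1 / d) ^ N < ε / 2 := hlim0.eventually (gt_mem_nhds (by linarith))
  obtain ⟨J, hJ⟩ := eventually_atTop.mp he1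
  obtain ⟨M, hM⟩ := eventually_atTop.mp he2
  refine ⟨J + M, fun j N hj hN => ?_⟩
  obtain ⟨m, rfl⟩ : ∃ m, N = j + m := ⟨N - j, by omega⟩
  have h1 := hJ j (by omega)
  have h2 := hM m (by omega)
  have h3 := hdist j m
  rw [abs_le] at h3
  linarith [h3.1]

/-- AST: the terms are small. -/
theorem AST (hENC : ENC_stmt) (hAPS : APS_stmt) (hABX : ABX_stmt) (hACL : ACL_stmt) : AST_stmt := by
  intro d f U 𝒱 C0 hd hG h𝒱 h𝒱U hint ι x0 y0 ρ hρ hbox ε hε
  obtain ⟨C1, hC1, hA, -, -⟩ := hAPS d f U hd hG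
  obtain ⟨C2, hC2, hB⟩ := hABX d f U 𝒱 C0 hd hG h𝒱 h𝒱U hint ι x0 y0 ρ hρ hbox
  have hboxU : ∀ p ∈ ball (x0, y0) ρ, cht ι p.1 p.2 ∈ cone U := by
    intro p hp
    obtain ⟨h1, h2⟩ := hbox p hp
    exact ⟨h1, h𝒱U h2⟩
  obtain ⟨C3, hC3, hCL⟩ := hACL d f U hd hG ι x0 y0 ρ hρ hboxU
  set h : ℕ → ℕ → ℂ × ℂ → ℝ := fun j N p => ed f N (psj f j N) (cht ι p.1 p.2) with hh
  have hnn : ∀ j N, j ≤ N → ∀ p ∈ ball (x0, y0) ρ, 0 ≤ h j N p := by
    intro j N hjN p hp
    exact (hENC d f U N (psj f j N) C1 hd hG (hA j N hjN) _ (hboxU p hp)).2.1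
  have hcont : ∀ j N, j ≤ N → ContinuousOn (h j N) (ball (x0, y0) ρ) := by
    intro j N hjN
    exact (AST_ed_cont hG N (hA j N hjN) (by omega)).comp (AST_cht_cont ι).continuousOn
      (fun p hp => hboxU p hp)
  have hgnn : ∀ j N, j ≤ N → ∀ p, 0 ≤ bxc x0 y0 ρ p * h j N p := by
    intro j N hjN p
    by_cases hp : p ∈ ball (x0, y0) ρ
    · exact mul_nonneg (AST_bxc_nn _ _ _ _) (hnn j N hjN p hp)
    · rw [AST_bxc_zero hρ hp, zero_mul]
  have hgm : ∀ j N, j ≤ N →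
      AEStronglyMeasurable (fun p => bxc x0 y0 ρ p * h j N p) (volume : Measure (ℂ × ℂ)) := by
    intro j N hjN
    have e : (fun p => bxc x0 y0 ρ p * h j N p) =
        (ball (x0, y0) ρ).indicator (fun p => bxc x0 y0 ρ p * h j N p) := by
      funext p
      by_cases hp : p ∈ ball (x0, y0) ρ
      · rw [indicator_of_mem hp]
      · rw [indicator_of_notMem hp, AST_bxc_zero hρ hp, zero_mul]
    rw [e, aestronglyMeasurable_indicator_iff measurableSet_ball]
    exact ((AST_bxc_cont x0 y0 ρ).continuousOn.mul (hcont j N hjN)).aestronglyMeasurable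
      measurableSet_ball
  have hlle : ∀ j N, j ≤ N → ∫⁻ p, ENNReal.ofReal (bxc x0 y0 ρ p * h j N p) ≤
      ∫⁻ p in ball (x0, y0) ρ, ENNReal.ofReal (h j N p) := by
    intro j N hjN
    rw [← lintegral_indicator measurableSet_ball]
    refine lintegral_mono fun p => ?_
    by_cases hp : p ∈ ball (x0, y0) ρ
    · rw [indicator_of_mem hp]
      refine ENNReal.ofReal_le_ofReal ?_
      have h1 := hnn j N hjN p hp
      have h2 := AST_bxc_le x0 y0 ρ p
      nlinarith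
    · rw [indicator_of_notMem hp, AST_bxc_zero hρ hp, zero_mul, ENNReal.ofReal_zero]
  have hfin : ∀ j N, j + 1 ≤ N → ∫⁻ p in ball (x0, y0) ρ, ENNReal.ofReal (h j N p) ≤
      ENNReal.ofReal C2 := by
    intro j N hjN
    refine le_trans ?_ (hB (j + 1) N hjN)
    exact Finset.single_le_sum
      (f := fun j => ∫⁻ p in ball (x0, y0) ρ, ENNReal.ofReal (ed f N (psj f j N) (cht ι p.1 p.2)))
      (fun _ _ => bot_le) (Finset.self_mem_range_succ j)
  have hgi : ∀ j N, j + 1 ≤ N → Integrable (fun p => bxc x0 y0 ρ p * h j N p) := by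
    intro j N hjN
    refine ⟨hgm j N (by omega), ?_⟩
    rw [hasFiniteIntegral_iff_ofReal (Eventually.of_forall (hgnn j N (by omega)))]
    exact ((hlle j N (by omega)).trans (hfin j N hjN)).trans_lt ENNReal.ofReal_lt_top
  have hbx : ∀ j N, j + 1 ≤ N → ENNReal.ofReal (bx f j N ι x0 y0 ρ) =
      ∫⁻ p, ENNReal.ofReal (bxc x0 y0 ρ p * h j N p) := by
    intro j N hjN
    exact ofReal_integral_eq_lintegral_ofReal (hgi j N hjN)
      (Eventually.of_forall (hgnn j N (by omega)))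
  have hbxn : ∀ j N, j + 1 ≤ N → 0 ≤ bx f j N ι x0 y0 ρ := by
    intro j N hjN
    exact integral_nonneg (hgnn j N (by omega))
  obtain ⟨nA, hnA⟩ := AST_seq (fun j N => bx f j N ι x0 y0 ρ) C2 C3 (d : ℝ) (by exact_mod_cast hd) hC3
    hbxn (by
      intro n N hnN
      have h1 : ENNReal.ofReal (∑ j ∈ Finset.range n, bx f j N ι x0 y0 ρ) ≤ ENNReal.ofReal C2 := by
        rw [ENNReal.ofReal_sum_of_nonneg (fun j hj => hbxn j N (by
          have := Finset.mem_range.mp hj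
          omega))]
        refine le_trans (Finset.sum_le_sum fun j hj => ?_) (hB n N hnN)
        have hj' := Finset.mem_range.mp hj
        rw [hbx j N (by omega)]
        exact hlle j N (by omega)
      exact (ENNReal.ofReal_le_ofReal_iff hC2.le).mp h1)
    (fun j N N' h1 h2 => hCL j N N' h1 h2) ε hε
  refine ⟨nA + 1, fun j N hj hN => ?_⟩
  have h1 := hnA j N (by omega) (by omega)
  calc ∫⁻ p in ball (x0, y0) (ρ / 2), ENNReal.ofReal (ed f N (psj f j N) (cht ι p.1 p.2))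
      ≤ ∫⁻ p, ENNReal.ofReal (bxc x0 y0 ρ p * h j N p) := by
        rw [← lintegral_indicator measurableSet_ball]
        refine lintegral_mono fun p => ?_
        by_cases hp : p ∈ ball (x0, y0) (ρ / 2)
        · rw [indicator_of_mem hp, AST_bxc_one hρ hp, one_mul]
        · rw [indicator_of_notMem hp]
          exact bot_le
    _ = ENNReal.ofReal (bx f j N ι x0 y0 ρ) := (hbx j N (by omega)).symm
    _ ≤ ENNReal.ofReal ε := ENNReal.ofReal_le_ofReal h1

end Pool.Agent.P2A
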