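import Pool.Agent.helper37.P2.SpecD

/-!
# Row p2:PGH (pigeonhole)
-/

set_option autoImplicit false

open scoped ContDiff Topology ComplexConjugate ENNReal
open MeasureTheory Filter Set Metric

namespace Pool.Agent.P2

open Classical in
/-- number of indices -/
theorem PGH_card (n0 T L : ℕ) (hn0 : 0 < n0) (S : Finset ℕ) (hS : ∀ k ∈ S, k < L)
    (h : ∀ k ∈ S, ∀ l ∈ S, k + n0 ≤ l → ¬ l ≤ k + T) :
    S.card ≤ (L / (T + 1) + 1) * n0 := by
  have h1 : S.card ≤ (Finset.range (L / (T + 1) + 1) ×ˢ Finset.range n0).card := by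
    refine Finset.card_le_card_of_injOn (fun k => (k / (T + 1), k % n0)) ?_ ?_
    · intro k hk
      have hk' : k ∈ S := hk
      have := hS k hk'
      refine Finset.mem_coe.mpr (Finset.mem_product.mpr ⟨Finset.mem_range.mpr ?_,
        Finset.mem_range.mpr (Nat.mod_lt _ hn0)⟩)
      exact Nat.lt_succ_of_le (Nat.div_le_div_right this.le)
    · have key : ∀ k ∈ S, ∀ l ∈ S, k < l → k / (T + 1) = l / (T + 1) → k % n0 = l % n0 → False := by
        intro k hk l hl hkl e1 e2
        have h2 : n0 ∣ l - k := (Nat.modEq_iff_dvd' hkl.le).mp e2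
        have h3 : n0 ≤ l - k := Nat.le_of_dvd (by omega) h2
        refine h k hk l hl (by omega) ?_
        have h4 := Nat.div_add_mod k (T + 1)
        have h5 := Nat.div_add_mod l (T + 1)
        have h6 := Nat.mod_lt l (Nat.succ_pos T)
        rw [e1] at h4
        simp only [Nat.succ_eq_add_one] at h6
        omega
      intro k hk l hl hkl
      simp only [Prod.mk.injEq] at hkl
      rcases Nat.lt_trichotomy k l with hlt | heq | hgt
      · exact (key k hk l hl hlt hkl.1 hkl.2).elim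
      · exact heq
      · exact (key l hl k hk hgt hkl.1.symm hkl.2.symm).elim
  rwa [Finset.card_product, Finset.card_range, Finset.card_range] at h1

/-- PGH: pigeonhole. -/
theorem PGH : PGH_stmt := by
  classical
  intro α n0 hα hn0
  refine ⟨⌈4 * n0 / α⌉₊, ⌈4 * n0 / α⌉₊ + 1, ?_⟩
  intro L hL μ hμ A E hA hE hE0 hsum
  set T := ⌈4 * n0 / α⌉₊ with hT
  by_contra hcon
  push Not at hcon
  have hbound : ∀ z ∈ E, ((Finset.Ico 1 L).filter (fun k => z ∈ A k)).card ≤
      (L / (T + 1) + 1) * n0 := by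
    intro z hz
    refine PGH_card n0 T L hn0 _ ?_ ?_
    · intro k hk
      exact (Finset.mem_Ico.mp (Finset.mem_filter.mp hk).1).2
    · intro k hk l hl hkl hlT
      obtain ⟨hk1, hk2⟩ := Finset.mem_filter.mp hk
      obtain ⟨hl1, hl2⟩ := Finset.mem_filter.mp hl
      exact hcon z hz k l (Finset.mem_Ico.mp hk1).1 hkl (Finset.mem_Ico.mp hl1).2 hlT hk2 hl2
  have hint : ∑ k ∈ Finset.Ico 1 L, μ (A k) =
      ∫⁻ z, ∑ k ∈ Finset.Ico 1 L, (A k).indicator (1 : ℂ → ℝ≥0∞) z ∂μ := by
    rw [lintegral_finset_sum]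
    · refine Finset.sum_congr rfl fun k _ => ?_
      rw [lintegral_indicator_one (hA k)]
    · intro k _
      exact measurable_one.indicator (hA k)
  have hle : ∑ k ∈ Finset.Ico 1 L, μ (A k) ≤ (((L / (T + 1) + 1) * n0 : ℕ) : ℝ≥0∞) := by
    rw [hint]
    calc ∫⁻ z, ∑ k ∈ Finset.Ico 1 L, (A k).indicator (1 : ℂ → ℝ≥0∞) z ∂μ
        ≤ ∫⁻ _, (((L / (T + 1) + 1) * n0 : ℕ) : ℝ≥0∞) ∂μ := by
          refine lintegral_mono_ae ?_
          have hE1 : ∀ᵐ z ∂μ, z ∈ E := by
            rw [ae_iff]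
            exact hE0
          filter_upwards [hE1] with z hz
          have e : ∑ k ∈ Finset.Ico 1 L, (A k).indicator (1 : ℂ → ℝ≥0∞) z =
              (((Finset.Ico 1 L).filter (fun k => z ∈ A k)).card : ℝ≥0∞) := by
            rw [Finset.card_filter]
            push_cast
            refine Finset.sum_congr rfl fun k _ => ?_
            by_cases hk : z ∈ A k
            · simp [hk]
            · simp [hk]
          rw [e]
          exact_mod_cast hbound z hz
      _ = (((L / (T + 1) + 1) * n0 : ℕ) : ℝ≥0∞) := by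
          rw [lintegral_const, measure_univ, mul_one]
  have h1 : α * L ≤ (((L / (T + 1) + 1) * n0 : ℕ) : ℝ) :=
    ENNReal.ofReal_le_natCast.mp (hsum.trans hle)
  have hn0' : (0 : ℝ) < n0 := by exact_mod_cast hn0
  have hT1 : 4 * n0 / α ≤ T := Nat.le_ceil _
  have hT2 : 4 * (n0 : ℝ) ≤ T * α := by rwa [div_le_iff₀ hα] at hT1
  have hL1 : (T : ℝ) + 1 ≤ L := by exact_mod_cast hL
  have h2 : ((L / (T + 1) : ℕ) : ℝ) ≤ L / (T + 1) := by
    have := @Nat.cast_div_le ℝ _ _ _ L (T + 1)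
    push_cast at this
    exact this
  push_cast at h1
  have hT0 : (0 : ℝ) ≤ T := Nat.cast_nonneg _
  have h3 : (L : ℝ) / (T + 1) * n0 ≤ α * L / 4 := by
    rw [div_mul_eq_mul_div, div_le_div_iff₀ (by positivity) (by norm_num)]
    have hL0 : (0 : ℝ) ≤ L := Nat.cast_nonneg _
    nlinarith
  have h4 : ((L / (T + 1) : ℕ) : ℝ) * n0 ≤ L / (T + 1) * n0 :=
    mul_le_mul_of_nonneg_right h2 hn0'.le
  have h5 : 4 * (n0 : ℝ) ≤ α * L := by nlinarith
  have hLpos : 0 < α * (L : ℝ) := mul_pos hα (by linarith)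
  nlinarith

end Pool.Agent.P2
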