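import Pool.Agent.helper15.P2.SpecB
import Pool.Agent.helper80.P2.LGA

set_option autoImplicit false

open scoped ContDiff Topology ComplexConjugate ENNReal
open MeasureTheory Filter Set Metric

namespace Pool.Agent.P2B

open Pool.Agent.P2 Pool.Agent.P2I

theorem BJE_ne (f : ℂ → ℂ) (c : ℂ) (R : ℝ) (hR : 0 < R) (hf : DifferentiableOn ℂ f (ball c R))
    (hc : f c ≠ 0) : ∀ᵐ z ∂(volume.restrict (ball c R)), f z ≠ 0 := by
  have ha : AnalyticOnNhd ℂ f (ball c R) := hf.analyticOnNhd isOpen_ball
  rcases ha.eqOn_zero_or_eventually_ne_zero_of_preconnected (convex_ball c R).isPreconnected with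
    h | h
  · exact absurd (h (mem_ball_self hR)) hc
  · exact ae_restrict_le_codiscreteWithin measurableSet_ball h

theorem BJE : BJE_stmt := by
  intro f c R R' hR hRR' hf hc
  set R1 : ℝ := (R + R') / 2 with hR1
  have h1 : R < R1 := by rw [hR1]; linarith
  have h2 : R1 < R' := by rw [hR1]; linarith
  have hsub : closedBall c R1 ⊆ ball c R' := closedBall_subset_ball h2
  obtain ⟨C, hC⟩ := (isCompact_closedBall c R1).exists_bound_of_continuousOn
    (hf.continuousOn.mono hsub)
  set K : ℝ := Real.log (max C 1) with hK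
  have hexpK : Real.exp K = max C 1 := Real.exp_log (lt_of_lt_of_le one_pos (le_max_right _ _))
  set a : ℂ := ((Real.exp (-K) : ℝ) : ℂ) with ha
  have ha0 : a ≠ 0 := by
    rw [ha]; exact_mod_cast (Real.exp_pos _).ne'
  have hna : ‖a‖ = Real.exp (-K) := by
    rw [ha, Complex.norm_real, Real.norm_eq_abs, abs_of_pos (Real.exp_pos _)]
  have hgd : DifferentiableOn ℂ (fun z => a * f z) (ball c R1) :=
    (hf.mono (ball_subset_ball h2.le)).const_mul a
  have hgb : ∀ z ∈ ball c R1, ‖a * f z‖ ≤ Real.exp 0 := by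
    intro z hz
    rw [norm_mul, hna, Real.exp_zero, Real.exp_neg, inv_mul_le_iff₀ (Real.exp_pos _), mul_one,
      hexpK]
    exact (hC z (ball_subset_closedBall hz)).trans (le_max_left _ _)
  have hgc : a * f c ≠ 0 := mul_ne_zero ha0 hc
  have hL := LGA (fun z => a * f z) c R R1 0 hR h1 le_rfl hgd hgb hgc
  have hlog : ∀ z, f z ≠ 0 → Real.log ‖a * f z‖ = Real.log ‖f z‖ - K := by
    intro z hz
    rw [norm_mul, Real.log_mul (norm_ne_zero_iff.2 ha0) (norm_ne_zero_iff.2 hz), hna, Real.log_exp]
    ring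
  have hne := BJE_ne f c R hR (hf.mono (ball_subset_ball hRR'.le)) hc
  -- measurability
  have hms : AEStronglyMeasurable (fun z => Real.log ‖a * f z‖) (volume.restrict (ball c R)) := by
    have hcont : ContinuousOn (fun z => a * f z) (ball c R) :=
      (continuousOn_const.mul (hf.continuousOn.mono (ball_subset_ball hRR'.le)))
    have h3 : AEMeasurable (fun z => a * f z) (volume.restrict (ball c R)) :=
      hcont.aemeasurable measurableSet_ball
    exact (Real.measurable_log.comp_aemeasurable h3.norm).aestronglyMeasurable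
  have hint : IntegrableOn (fun z => Real.log ‖a * f z‖) (ball c R) := by
    refine ⟨hms, ?_⟩
    show ∫⁻ z in ball c R, ‖Real.log ‖a * f z‖‖ₑ < ⊤
    refine lt_of_le_of_lt ?_ (lt_of_le_of_lt hL ENNReal.ofReal_lt_top)
    refine lintegral_mono fun z => ?_
    rw [Real.enorm_eq_ofReal_abs]
  have hcongr : (fun z => Real.log ‖a * f z‖ + K) =ᵐ[volume.restrict (ball c R)]
      fun z => Real.log ‖f z‖ := by
    filter_upwards [hne] with z hz
    rw [hlog z hz]
    ring
  have hvol : volume (ball c R) = ENNReal.ofReal (Real.pi * R ^ 2) := by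
    rw [Complex.volume_ball]
    rw [ENNReal.ofReal_mul Real.pi_pos.le, ENNReal.ofReal_pow hR.le, mul_comm]
    congr 1
    rw [ENNReal.ofReal, ← NNReal.coe_real_pi, Real.toNNReal_coe]
  have hfin : volume (ball c R) ≠ ⊤ := measure_ball_lt_top.ne
  have hconst : IntegrableOn (fun _ : ℂ => K) (ball c R) := integrableOn_const hfin
  have hintf : IntegrableOn (fun z => Real.log ‖f z‖) (ball c R) :=
    (hint.add hconst).congr hcongr
  refine ⟨hintf, ?_⟩
  have hreal : volume.real (ball c R) = Real.pi * R ^ 2 := by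
    rw [Measure.real, hvol, ENNReal.toReal_ofReal (by positivity)]
  have hA : 0 < Real.pi * R ^ 2 := by positivity
  rw [setAverage_eq, hreal, smul_eq_mul, inv_mul_eq_div, le_div_iff₀ hA]
  have e1 : ∫ z in ball c R, Real.log ‖f z‖ =
      (∫ z in ball c R, Real.log ‖a * f z‖) + Real.pi * R ^ 2 * K := by
    rw [← integral_congr_ae hcongr, integral_add hint hconst, setIntegral_const, hreal, smul_eq_mul]
  have hneg : ∀ z ∈ ball c R, Real.log ‖a * f z‖ ≤ 0 := by
    intro z hz
    have := hgb z (ball_subset_ball h1.le hz)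
    rw [Real.exp_zero] at this
    exact Real.log_nonpos (norm_nonneg _) this
  have e2 : -(∫ z in ball c R, Real.log ‖a * f z‖) ≤
      Real.pi * R ^ 2 * (2 * 0 - Real.log ‖a * f c‖) := by
    have h3 : ENNReal.ofReal (∫ z in ball c R, |Real.log ‖a * f z‖|) ≤
        ENNReal.ofReal (Real.pi * R ^ 2 * (2 * 0 - Real.log ‖a * f c‖)) := by
      rw [ofReal_integral_eq_lintegral_ofReal hint.abs (Eventually.of_forall fun z => abs_nonneg _)]
      exact hL
    have h4 : 0 ≤ Real.pi * R ^ 2 * (2 * 0 - Real.log ‖a * f c‖) := by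
      have := hneg c (mem_ball_self hR)
      have h5 : 0 ≤ 2 * 0 - Real.log ‖a * f c‖ := by linarith
      exact mul_nonneg hA.le h5
    have h6 := (ENNReal.ofReal_le_ofReal_iff h4).1 h3
    have h7 : ∫ z in ball c R, |Real.log ‖a * f z‖| = -(∫ z in ball c R, Real.log ‖a * f z‖) := by
      rw [← integral_neg]
      refine setIntegral_congr_fun measurableSet_ball fun z hz => ?_
      exact abs_of_nonpos (hneg z hz)
    linarith
  rw [hlog c hc] at e2
  rw [e1]
  nlinarith

end Pool.Agent.P2B
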